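import Pool.Agent.TH395.P5.Stm

set_option autoImplicit false
set_option linter.unusedSectionVars false

/-! # Masks for the boundary vector test (PF-A) -/

namespace Pool.Agent.TH399.P5.FLOW

open Finset Pool.Agent.TH462.T4 Pool.Agent.TH676.T4 Pool.Agent.TH395.P5

/-! ### masks -/

/-- the properties of the mask of bit `b` at the code `c` -/
def cond (b c : ℕ) : Bool :=
  ((c.testBit b && decide (2 ^ b ≤ c) && (fmL.getD b 0).testBit (c - 2 ^ b) &&
      !(fmL.getD b 0).testBit c && decide (c ^^^ 2 ^ b = c - 2 ^ b)) ||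
    (!c.testBit b && (!decide (2 ^ b ≤ c) || !(fmL.getD b 0).testBit (c - 2 ^ b)) &&
      (fmL.getD b 0).testBit c && decide (c ^^^ 2 ^ b = 2 ^ b + c))) &&
  (decide (c + 2 ^ b < 4096) || !(fmL.getD b 0).testBit c)

/-- the property of the mask of slot `i` at the code `c` -/
def condZ (i c : ℕ) : Bool :=
  (zmL.getD i 0).testBit c == (!c.testBit (2 * i) && !c.testBit (2 * i + 1))

def chk (n : ℕ) (P : ℕ → ℕ → Bool) : Bool :=
  (List.range n).all fun b => (List.range 64).all fun c => (List.range 64).all fun c' =>
    P b (64 * c + c')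

theorem chk_of {n : ℕ} {P : ℕ → ℕ → Bool} (h : chk n P = true) (b c : ℕ) (hb : b < n)
    (hc : c < 4096) : P b c = true := by
  unfold chk at h
  rw [List.all_eq_true] at h
  have h1 := h b (List.mem_range.mpr hb)
  rw [List.all_eq_true] at h1
  have h2 := h1 (c / 64) (List.mem_range.mpr (by omega))
  rw [List.all_eq_true] at h2
  have h3 := h2 (c % 64) (List.mem_range.mpr (by omega))
  rwa [Nat.div_add_mod] at h3

set_option maxRecDepth 100000 in
theorem chkF : chk 12 cond = true := by decide +kernel

set_option maxRecDepth 100000 in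
theorem chkZ : chk 6 condZ = true := by decide +kernel

theorem fm_lt : ∀ b < 12, fmL.getD b 0 < 2 ^ 4096 := by decide +kernel

end Pool.Agent.TH399.P5.FLOW
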